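import Mathlib

/-!
# Rank of a real analytic function from the ranks of its hyperplane restrictions

Proof outline.  Near every point `p` has a polarisation `K(z,w)`, holomorphic in `z` and
antiholomorphic in `w`, with `K(z,z) = p(z)` (`exists_ker`).  The rank hypothesis on a complex line
says that the minors of size `k+1` of `K` vanish on a line times itself; by polarisation in the
parameters of the line they vanish on every pair of lines (`IsKer.minors`).  A separation lemma
(`polydisc_rank`) for vector valued holomorphic functions then bounds the rank of `K` near the point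
by `k^(n^2)` (`local_rank`).  The finite dimensional spaces spanned by the columns of the local
kernels form a locally constant system, which is continued along rays (`continuation`), so that the
local factorisation of `K` extends to entire functions (`main_lines`).
-/

set_option autoImplicit false

namespace Pool.Agent.Results.MP_37b94e_an.RankBound

open Matrix Topology Metric ComplexConjugate ENNReal NNReal

/-- every `(k+1)`-minor of the kernel `F` with rows in `S` vanishes -/
def ML {Z T : Type*} (F : Z → T → ℂ) (S : Set Z) (k : ℕ) : Prop :=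
  ∀ (x : Fin (k + 1) → Z) (t : Fin (k + 1) → T), (∀ i, x i ∈ S) →
    (Matrix.of fun i j => F (x i) (t j)).det = 0

/-- the kernel `F` with rows in `S` factors through dimension `r` -/
def RL {Z T : Type*} (F : Z → T → ℂ) (S : Set Z) (r : ℕ) : Prop :=
  ∃ (ι : Type) (_ : Fintype ι) (γ : Z → ι → ℂ) (b : ι → T → ℂ), Fintype.card ι ≤ r ∧
    ∀ z ∈ S, ∀ t, F z t = ∑ i, γ z i * b i t

theorem ML.index {Z T : Type*} {F : Z → T → ℂ} {S : Set Z} {k : ℕ} (h : ML F S k)
    {ι : Type*} [Fintype ι] [DecidableEq ι] (hc : Fintype.card ι = k + 1)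
    (x : ι → Z) (t : ι → T) (hx : ∀ i, x i ∈ S) :
    (Matrix.of fun i j => F (x i) (t j)).det = 0 := by
  have e : Fin (k + 1) ≃ ι := (Fintype.equivFinOfCardEq hc).symm
  have h1 := h (x ∘ e) (t ∘ e) (fun i => hx _)
  rw [← Matrix.det_submatrix_equiv_self e]
  exact h1

theorem RL.mono {Z T : Type*} {F : Z → T → ℂ} {S : Set Z} {r r' : ℕ} (h : RL F S r)
    (hr : r ≤ r') : RL F S r' := by
  obtain ⟨ι, _, γ, b, h1, h2⟩ := h
  exact ⟨ι, _, γ, b, h1.trans hr, h2⟩

theorem RL.ml {Z T : Type*} {F : Z → T → ℂ} {S : Set Z} {r : ℕ} (h : RL F S r) : ML F S r := by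
  obtain ⟨ι, _, γ, b, h1, h2⟩ := h
  intro x t hx
  classical
  have hmul : (Matrix.of fun i j => F (x i) (t j)) =
      (Matrix.of fun (i : Fin (r + 1)) (l : ι) => γ (x i) l) *
        (Matrix.of fun (l : ι) (j : Fin (r + 1)) => b l (t j)) := by
    ext i j
    simp [Matrix.mul_apply, h2 (x i) (hx i)]
  by_contra hne
  have hu : IsUnit (Matrix.of fun i j => F (x i) (t j)) :=
    (Matrix.isUnit_iff_isUnit_det _).mpr (isUnit_iff_ne_zero.mpr hne)
  have hr1 := Matrix.rank_of_isUnit _ hu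
  have hr2 : (Matrix.of fun i j => F (x i) (t j)).rank ≤ Fintype.card ι := by
    rw [hmul]
    exact (Matrix.rank_mul_le_left _ _).trans (Matrix.rank_le_card_width _)
  rw [hr1, Fintype.card_fin] at hr2
  omega

/-- Cramer / Schur complement -/
theorem cla {Z T : Type*} (F : Z → T → ℂ) (r : ℕ) (x : Fin r → Z) (τ : Fin r → T)
    (hA : (Matrix.of fun i j => F (x i) (τ j)).det ≠ 0) (z : Z) (t : T)
    (hz : (Matrix.of fun (i j : Fin r ⊕ Unit) =>
      F (Sum.elim x (fun _ => z) i) (Sum.elim τ (fun _ => t) j)).det = 0) :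
    F z t = ∑ i, ∑ j, F z (τ i) * (Matrix.of fun i j => F (x i) (τ j))⁻¹ i j * F (x j) t := by
  set A : Matrix (Fin r) (Fin r) ℂ := Matrix.of fun i j => F (x i) (τ j) with hAdef
  have hu : IsUnit A.det := isUnit_iff_ne_zero.mpr hA
  let _ : Invertible A := Matrix.invertibleOfIsUnitDet A hu
  have hM : (Matrix.of fun (i j : Fin r ⊕ Unit) =>
      F (Sum.elim x (fun _ => z) i) (Sum.elim τ (fun _ => t) j)) =
      Matrix.fromBlocks A (Matrix.of fun i (_ : Unit) => F (x i) t)
        (Matrix.of fun (_ : Unit) j => F z (τ j)) (Matrix.of fun _ _ => F z t) := by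
    ext i j
    rcases i with i | i <;> rcases j with j | j <;> simp [hAdef]
  rw [hM, Matrix.det_fromBlocks₁₁] at hz
  have h1 := (mul_eq_zero.mp hz).resolve_left hA
  rw [Matrix.det_unique] at h1
  simp only [Matrix.sub_apply, Matrix.mul_apply, Matrix.of_apply, Matrix.invOf_eq_nonsing_inv] at h1
  rw [sub_eq_zero] at h1
  rw [h1, Finset.sum_comm]
  simp only [Finset.sum_mul]
  

/-- skeleton decomposition -/
theorem skeleton {Z T : Type*} (F : Z → T → ℂ) (S : Set Z) (k : ℕ) (h : ML F S k) :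
    ∃ r ≤ k, ∃ (x : Fin r → Z) (τ : Fin r → T) (M : Matrix (Fin r) (Fin r) ℂ), (∀ i, x i ∈ S) ∧
      ∀ z ∈ S, ∀ t, F z t = ∑ i, ∑ j, F z (τ i) * M i j * F (x j) t := by
  induction k with
  | zero =>
    refine ⟨0, le_rfl, Fin.elim0, Fin.elim0, 0, fun i => i.elim0, ?_⟩
    intro z hz t
    have h1 : (Matrix.of fun (_ _ : Fin 1) => F z t).det = 0 :=
      h (fun _ => z) (fun _ => t) (fun _ => hz)
    rw [Matrix.det_unique] at h1
    simpa using h1
  | succ k ih =>
    by_cases hall : ML F S k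
    · obtain ⟨r, hr, rest⟩ := ih hall
      exact ⟨r, hr.trans (Nat.le_succ k), rest⟩
    · unfold ML at hall
      push Not at hall
      obtain ⟨x, τ, hx, hdet⟩ := hall
      refine ⟨k + 1, le_rfl, x, τ, (Matrix.of fun i j => F (x i) (τ j))⁻¹, hx, ?_⟩
      intro z hz t
      apply cla F (k + 1) x τ hdet z t
      apply h.index (by simp)
      rintro (i | i)
      · exact hx i
      · exact hz

/-- evaluation functionals recovering a finite dimensional space of functions -/
theorem projector {ι : Type} [Fintype ι] {T : Type*} (b : ι → T → ℂ) :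
    ∃ r ≤ Fintype.card ι, ∃ (τ : Fin r → T) (c : Fin r → T → ℂ), ∀ g : T → ℂ,
      (∃ α : ι → ℂ, ∀ t, g t = ∑ i, α i * b i t) → ∀ t, g t = ∑ j, g (τ j) * c j t := by
  classical
  have hRL : RL b Set.univ (Fintype.card ι) :=
    ⟨ι, inferInstance, fun i j => if i = j then 1 else 0, b, le_rfl, by
      intro z _ t
      simp⟩
  obtain ⟨r, hr, x, τ, M, -, h⟩ := skeleton b Set.univ _ hRL.ml
  refine ⟨r, hr, τ, fun j t => ∑ l, M j l * b (x l) t, ?_⟩
  rintro g ⟨α, hα⟩ t
  rw [hα t]
  have h1 : ∀ i, b i t = ∑ j, b i (τ j) * ∑ l, M j l * b (x l) t := by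
    intro i
    rw [h i (Set.mem_univ _) t]
    refine Finset.sum_congr rfl fun j _ => ?_
    rw [Finset.mul_sum]
    refine Finset.sum_congr rfl fun l _ => by ring
  calc ∑ i, α i * b i t = ∑ i, α i * ∑ j, b i (τ j) * ∑ l, M j l * b (x l) t := by
        refine Finset.sum_congr rfl fun i _ => by rw [← h1 i]
    _ = ∑ i, ∑ j, α i * (b i (τ j) * ∑ l, M j l * b (x l) t) := by
        refine Finset.sum_congr rfl fun i _ => by rw [Finset.mul_sum]
    _ = ∑ j, ∑ i, α i * (b i (τ j) * ∑ l, M j l * b (x l) t) := Finset.sum_comm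
    _ = ∑ j, g (τ j) * ∑ l, M j l * b (x l) t := by
        refine Finset.sum_congr rfl fun j _ => ?_
        rw [hα (τ j), Finset.sum_mul]
        refine Finset.sum_congr rfl fun i _ => by ring

theorem ident1 {f : ℂ → ℂ} {U : Set ℂ} (hU : IsOpen U) (hc : Convex ℝ U)
    (hf : DifferentiableOn ℂ f U) {a : ℂ} (ha : a ∈ U) (h0 : f =ᶠ[𝓝 a] 0) :
    ∀ z ∈ U, f z = 0 := by
  have han : AnalyticOnNhd ℂ f U := hf.analyticOnNhd hU
  intro z hz
  exact han.eqOn_zero_of_preconnected_of_eventuallyEq_zero hc.isPreconnected ha h0 hz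

section

variable {E : Type*} [NormedAddCommGroup E] [NormedSpace ℂ E]

theorem identE {f : E → ℂ} {Y : Set E} (hY : IsOpen Y) (hc : Convex ℝ Y)
    (hf : DifferentiableOn ℂ f Y) {a : E} (ha : a ∈ Y) (h0 : f =ᶠ[𝓝 a] 0) :
    ∀ z ∈ Y, f z = 0 := by
  intro z hz
  have hcont : Continuous fun l : ℂ => a + l • (z - a) := by fun_prop
  have hdiff : Differentiable ℂ fun l : ℂ => a + l • (z - a) := by fun_prop
  have h1 : IsOpen {l : ℂ | a + l • (z - a) ∈ Y} := hY.preimage hcont
  have h2 : Convex ℝ {l : ℂ | a + l • (z - a) ∈ Y} := by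
    intro l hl m hm s t hs ht hst
    simp only [Set.mem_ofPred_eq] at *
    have h3 : a + (s • l + t • m) • (z - a) =
        s • (a + l • (z - a)) + t • (a + m • (z - a)) := by
      have : a = (s + t) • a := by rw [hst, one_smul]
      nth_rewrite 1 [this]
      simp only [add_smul, smul_add, smul_assoc]
      abel
    rw [h3]
    exact hc hl hm hs ht hst
  have h4 : DifferentiableOn ℂ (fun l : ℂ => f (a + l • (z - a)))
      {l : ℂ | a + l • (z - a) ∈ Y} :=
    hf.comp hdiff.differentiableOn (fun l hl => hl)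
  have h5 : (fun l : ℂ => f (a + l • (z - a))) =ᶠ[𝓝 0] 0 := by
    have h6 : Filter.Tendsto (fun l : ℂ => a + l • (z - a)) (𝓝 0) (𝓝 a) := by
      have := hcont.tendsto 0
      simpa using this
    exact h6.eventually h0
  have h7 := ident1 h1 h2 h4 (a := 0) (by simpa using ha) h5 1 (by simpa using hz)
  simpa using h7

end

/-- the product lemma -/
theorem product_rank {E : Type*} [NormedAddCommGroup E] [NormedSpace ℂ E] {Z T : Type*}
    (F : Z → E → T → ℂ) (X : Set Z) (Y : Set E) (hY : IsOpen Y) (hc : Convex ℝ Y)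
    (hF : ∀ x ∈ X, ∀ t, DifferentiableOn ℂ (fun y => F x y t) Y) (m : ℕ)
    (h2 : ∀ x ∈ X, RL (F x) Y m) (k : ℕ)
    (h1 : ∀ y ∈ Y, ML (fun x => F x y) X k) :
    RL (fun (z : Z × E) => F z.1 z.2) (X ×ˢ Y) (k * m) := by
  induction k with
  | zero =>
    refine ⟨Empty, inferInstance, fun _ e => e.elim, fun e => e.elim, by simp, ?_⟩
    rintro ⟨x, y⟩ ⟨hx, hy⟩ t
    have h3 : (Matrix.of fun (_ _ : Fin 1) => F x y t).det = 0 :=
      h1 y hy (fun _ => x) (fun _ => t) (fun _ => hx)
    rw [Matrix.det_unique] at h3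
    simpa using h3
  | succ k ih =>
    by_cases hall : ∀ y ∈ Y, ML (fun x => F x y) X k
    · exact (ih hall).mono (Nat.mul_le_mul_right m (Nat.le_succ k))
    · unfold ML at hall
      push Not at hall
      obtain ⟨y0, hy0, x, τ, hx, hdet⟩ := hall
      -- the minor is nonzero near `y0`
      have hcont : ContinuousAt
          (fun y => (Matrix.of fun i j => F (x i) y (τ j)).det) y0 := by
        have : ∀ i j, ContinuousAt (fun y => F (x i) y (τ j)) y0 := fun i j =>
          ((hF (x i) (hx i) (τ j)).differentiableAt (hY.mem_nhds hy0)).continuousAt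
        simp only [Matrix.det_apply]
        refine tendsto_finsetSum _ fun σ _ => ?_
        refine Filter.Tendsto.const_smul ?_ _
        refine tendsto_finsetProd _ fun i _ => ?_
        exact this _ _
      have hev : ∀ᶠ y in 𝓝 y0, (Matrix.of fun i j => F (x i) y (τ j)).det ≠ 0 ∧ y ∈ Y :=
        (hcont.eventually_ne hdet).and (hY.mem_nhds hy0)
      choose ι hι γ b hcard hb using fun i => h2 (x i) (hx i)
      obtain ⟨r, hr, σ, c, hproj⟩ := projector (fun (p : Σ i, ι i) => b p.1 p.2)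
      have hcardle : Fintype.card (Σ i, ι i) ≤ (k + 1) * m := by
        rw [Fintype.card_sigma]
        calc ∑ i, Fintype.card (ι i) ≤ ∑ _i : Fin (k + 1), m := Finset.sum_le_sum fun i _ => hcard i
          _ = (k + 1) * m := by simp
      -- for `y` near `y0`
      have hnear : ∀ z ∈ X, ∀ t, ∀ᶠ y in 𝓝 y0, F z y t = ∑ j, F z y (σ j) * c j t := by
        intro z hz t
        filter_upwards [hev] with y hy
        apply hproj
        refine ⟨fun p => (∑ i, F z y (τ i) * (Matrix.of fun i j => F (x i) y (τ j) :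
          Matrix (Fin (k + 1)) (Fin (k + 1)) ℂ)⁻¹ i p.1) * γ p.1 y p.2, ?_⟩
        intro t'
        have h3 := cla (fun x => F x y) (k + 1) x τ hy.1 z t' ((h1 y hy.2).index (by simp) _ _ (by
          rintro (i | i)
          · exact hx i
          · exact hz))
        change F z y t' = _ at h3
        rw [h3, Finset.sum_comm, Fintype.sum_sigma]
        refine Finset.sum_congr rfl fun j _ => ?_
        rw [← Finset.sum_mul, hb j y hy.2 t', Finset.mul_sum]
        refine Finset.sum_congr rfl fun l _ => ?_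
        ring
      refine ⟨Fin r, inferInstance, fun z j => F z.1 z.2 (σ j), c, ?_, ?_⟩
      · rw [Fintype.card_fin]; exact hr.trans hcardle
      · rintro ⟨z, y⟩ ⟨hz, hy⟩ t
        simp only at hz hy ⊢
        have h4 := identE (f := fun y => F z y t - ∑ j, F z y (σ j) * c j t) hY hc (by
          refine (hF z hz t).sub ?_
          refine DifferentiableOn.fun_sum fun j _ => ?_
          exact (hF z hz (σ j)).mul_const _) hy0 (by
            filter_upwards [hnear z hz t] with y hy
            simp [← hy]) y hy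
        exact sub_eq_zero.mp h4

/-- the polydisc lemma -/
theorem polydisc_rank {T : Type*} (k : ℕ) : ∀ (n : ℕ) (c : Fin n → ℂ) (R : ℝ)
    (F : (Fin n → ℂ) → T → ℂ), 0 < R → (∀ t, DifferentiableOn ℂ (fun z => F z t) (ball c R)) →
    (∀ a ∈ ball c R, ∀ i : Fin n, ML (fun s : ℂ => F (Function.update a i s)) (ball (c i) R) k) →
    RL F (ball c R) (k ^ n) := by
  intro n
  induction n with
  | zero =>
    intro c R F hR hF h
    refine ⟨Unit, inferInstance, fun _ _ => 1, fun _ t => F c t, by simp, ?_⟩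
    intro z hz t
    simp [Subsingleton.elim z c]
  | succ n ih =>
    intro c R F hR hF h
    have hmem : ∀ (x : ℂ) (y : Fin n → ℂ), (Fin.cons x y : Fin (n + 1) → ℂ) ∈ ball c R ↔
        x ∈ ball (c 0) R ∧ y ∈ ball (Fin.tail c) R := by
      intro x y
      simp only [mem_ball, dist_pi_lt_iff hR, Fin.forall_fin_succ, Fin.cons_zero, Fin.cons_succ]
      rfl
    have hcons : ∀ x : ℂ, Differentiable ℂ (fun y : Fin n → ℂ => (Fin.cons x y : Fin (n + 1) → ℂ)) := by
      intro x
      rw [differentiable_pi]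
      intro i
      refine Fin.cases ?_ (fun j => ?_) i
      · simp
      · simp only [Fin.cons_succ]
        fun_prop
    have key := product_rank (fun (x : ℂ) (y : Fin n → ℂ) t => F (Fin.cons x y) t)
      (ball (c 0) R) (ball (Fin.tail c) R) isOpen_ball (convex_ball _ _)
      (fun x hx t => (hF t).comp (hcons x).differentiableOn (fun y hy => (hmem x y).mpr ⟨hx, hy⟩))
      (k ^ n)
      (fun x hx => by
        apply ih (Fin.tail c) R _ hR
        · exact fun t => (hF t).comp (hcons x).differentiableOn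
            (fun y hy => (hmem x y).mpr ⟨hx, hy⟩)
        · intro a ha i
          have h3 := h (Fin.cons x a) ((hmem x a).mpr ⟨hx, ha⟩) i.succ
          simp only [← Fin.cons_update] at h3
          exact h3) k
      (fun y hy => by
        have h3 := h (Fin.cons (c 0) y) ((hmem _ y).mpr ⟨mem_ball_self hR, hy⟩) 0
        simp only [Fin.update_cons_zero] at h3
        exact h3)
    obtain ⟨ι, _, γ, b, hcard, hb⟩ := key
    refine ⟨ι, inferInstance, fun z => γ (z 0, Fin.tail z), b, ?_, ?_⟩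
    · rw [pow_succ, mul_comm]; exact hcard
    · intro z hz t
      have hz' : (Fin.cons (z 0) (Fin.tail z) : Fin (n + 1) → ℂ) ∈ ball c R := by
        rw [Fin.cons_self_tail]; exact hz
      have h3 := hb (z 0, Fin.tail z) ((hmem _ _).mp hz') t
      simp only [Fin.cons_self_tail] at h3
      exact h3

section SH

variable {E : Type*} [NormedAddCommGroup E] [NormedSpace ℂ E]

/-- `K` is holomorphic in the first and antiholomorphic in the second variable, along all pairs of
complex lines -/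
def SH (K : E → E → ℂ) (Ω : Set E) : Prop :=
  ∀ (A B A' B' : E) (l : ℂ), A + l • B ∈ Ω → A' + conj l • B' ∈ Ω →
    DifferentiableAt ℂ (fun l : ℂ => K (A + l • B) (A' + conj l • B')) l

theorem SH.zero {K : E → E → ℂ} {Ω : Set E} (hK : SH K Ω) (hΩ : IsOpen Ω) (hc : Convex ℝ Ω)
    (hd : ∀ x ∈ Ω, K x x = 0) : ∀ x ∈ Ω, ∀ w ∈ Ω, K x w = 0 := by
  intro x hx w hw
  set A : E := (1 / 2 : ℂ) • (x + w) with hA
  set B : E := (-Complex.I / 2) • (x - w) with hB
  have hx1 : A + Complex.I • B = x := by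
    rw [hA, hB, smul_smul, show Complex.I * (-Complex.I / 2) = 1 / 2 by
      linear_combination (-1 / 2) * Complex.I_mul_I]
    rw [← smul_add, show x + w + (x - w) = (2 : ℂ) • x by rw [two_smul]; abel, smul_smul]
    norm_num
  have hw1 : A + conj Complex.I • B = w := by
    rw [hA, hB, Complex.conj_I, smul_smul, show -Complex.I * (-Complex.I / 2) = -(1 / 2) by
      linear_combination (1 / 2) * Complex.I_mul_I]
    rw [neg_smul, ← sub_eq_add_neg, ← smul_sub, show x + w - (x - w) = (2 : ℂ) • w by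
      rw [two_smul]; abel, smul_smul]
    norm_num
  have hAΩ : A ∈ Ω := by
    have := hc hx hw (a := 1 / 2) (b := 1 / 2) (by norm_num) (by norm_num) (by norm_num)
    rw [hA, smul_add]
    have e : ∀ y : E, (1 / 2 : ℂ) • y = (1 / 2 : ℝ) • y := by
      intro y
      rw [← Complex.coe_smul]
      norm_num
    rw [e, e]
    exact this
  set U : Set ℂ := {l : ℂ | A + l • B ∈ Ω ∧ A + conj l • B ∈ Ω} with hU
  have hUo : IsOpen U := by
    apply IsOpen.inter
    · exact hΩ.preimage (by fun_prop)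
    · exact hΩ.preimage (by fun_prop)
  have hUc : Convex ℝ U := by
    intro l hl m hm s t hs ht hst
    have key : ∀ l m : ℂ, A + ((s : ℝ) • l + (t : ℝ) • m) • B =
        s • (A + l • B) + t • (A + m • B) := by
      intro l m
      have : A = (s + t) • A := by rw [hst, one_smul]
      nth_rewrite 1 [this]
      simp only [add_smul, smul_add, smul_assoc]
      abel
    refine ⟨?_, ?_⟩
    · rw [key]
      exact hc hl.1 hm.1 hs ht hst
    · have : conj (s • l + t • m) = s • conj l + t • conj m := by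
        simp
      rw [this, key]
      exact hc hl.2 hm.2 hs ht hst
  have hg : AnalyticOnNhd ℂ (fun l : ℂ => K (A + l • B) (A + conj l • B)) U := by
    apply DifferentiableOn.analyticOnNhd _ hUo
    intro l hl
    exact (hK A B A B l hl.1 hl.2).differentiableWithinAt
  have h0U : (0 : ℂ) ∈ U := by simp [hU, hAΩ]
  have hfreq : ∃ᶠ z : ℂ in 𝓝[≠] 0, K (A + z • B) (A + conj z • B) = 0 := by
    have htend : Filter.Tendsto (fun r : ℝ => (r : ℂ)) (𝓝[≠] 0) (𝓝[≠] 0) := by
      apply tendsto_nhdsWithin_of_tendsto_nhds_of_eventually_within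
      · exact (Complex.continuous_ofReal.tendsto 0).mono_left nhdsWithin_le_nhds
      · filter_upwards [self_mem_nhdsWithin] with r hr
        simpa using hr
    apply htend.frequently
    apply Filter.Eventually.frequently
    have h1 : ∀ᶠ r : ℝ in 𝓝[≠] 0, (r : ℂ) ∈ U :=
      (htend.mono_right nhdsWithin_le_nhds).eventually (hUo.mem_nhds h0U)
    filter_upwards [h1] with r hr
    have := hr.1
    rw [Complex.conj_ofReal]
    exact hd _ this
  have hI : Complex.I ∈ U := ⟨by rw [hx1]; exact hx, by rw [hw1]; exact hw⟩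
  have := hg.eqOn_zero_of_preconnected_of_frequently_eq_zero hUc.isPreconnected h0U hfreq hI
  simp only [hx1, hw1] at this
  exact this

theorem SH.mono {K : E → E → ℂ} {Ω Ω' : Set E} (hK : SH K Ω) (h : Ω' ⊆ Ω) : SH K Ω' :=
  fun A B A' B' l h1 h2 => hK A B A' B' l (h h1) (h h2)

theorem SH.sub {K K' : E → E → ℂ} {Ω : Set E} (hK : SH K Ω) (hK' : SH K' Ω) :
    SH (fun x y => K x y - K' x y) Ω :=
  fun A B A' B' l h1 h2 => (hK A B A' B' l h1 h2).sub (hK' A B A' B' l h1 h2)

theorem SH.sum {ι : Type*} (s : Finset ι) {K : ι → E → E → ℂ} {Ω : Set E}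
    (hK : ∀ i ∈ s, SH (K i) Ω) : SH (fun x y => ∑ i ∈ s, K i x y) Ω :=
  fun A B A' B' l h1 h2 => DifferentiableAt.fun_sum fun i hi => hK i hi A B A' B' l h1 h2

theorem SH.const_mul {K : E → E → ℂ} {Ω : Set E} (c : ℂ) (hK : SH K Ω) :
    SH (fun x y => c * K x y) Ω :=
  fun A B A' B' l h1 h2 => (hK A B A' B' l h1 h2).const_mul c

theorem SH.det {m : ℕ} {K : Fin m → Fin m → E → E → ℂ} {Ω : Set E}
    (hK : ∀ i j, SH (K i j) Ω) : SH (fun x y => (Matrix.of fun i j => K i j x y).det) Ω := by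
  intro A B A' B' l h1 h2
  simp only [Matrix.det_apply, Matrix.of_apply]
  refine DifferentiableAt.fun_sum fun σ _ => ?_
  refine DifferentiableAt.const_smul ?_ _
  refine DifferentiableAt.fun_finsetProd fun i _ => ?_
  exact hK _ _ A B A' B' l h1 h2

theorem SH.tensor {f g : E → ℂ} {Ω : Set E} (hΩ : IsOpen Ω) (hf : DifferentiableOn ℂ f Ω)
    (hg : DifferentiableOn ℂ g Ω) : SH (fun x y => f x * conj (g y)) Ω := by
  intro A B A' B' l h1 h2
  have hf1 : DifferentiableAt ℂ (fun l : ℂ => f (A + l • B)) l :=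
    DifferentiableAt.comp l (hf.differentiableAt (hΩ.mem_nhds h1)) (by fun_prop)
  have hg1 : DifferentiableAt ℂ (fun l : ℂ => g (A' + l • B')) (conj l) :=
    DifferentiableAt.comp (conj l) (hg.differentiableAt (hΩ.mem_nhds h2)) (by fun_prop)
  have hg2 := hg1.conj_conj
  rw [Complex.conj_conj] at hg2
  exact hf1.mul hg2

theorem SH.swap {K : E → E → ℂ} {Ω : Set E} (hK : SH K Ω) :
    SH (fun x y => conj (K y x)) Ω := by
  intro A B A' B' l h1 h2
  have h3 := hK A' B' A B (conj l) h2 (by rwa [Complex.conj_conj])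
  have h4 := h3.conj_conj
  rw [Complex.conj_conj] at h4
  refine h4.congr_of_eventuallyEq ?_
  filter_upwards with m
  simp [Function.comp]

theorem SH.comp {E' : Type*} [NormedAddCommGroup E'] [NormedSpace ℂ E'] {K : E → E → ℂ}
    {Ω : Set E} (hK : SH K Ω) (a a' : E) (M M' : E' →ₗ[ℂ] E) {Ω' : Set E'}
    (h1 : ∀ x ∈ Ω', a + M x ∈ Ω) (h2 : ∀ x ∈ Ω', a' + M' x ∈ Ω) :
    SH (fun x y => K (a + M x) (a' + M' y)) Ω' := by
  intro A B A' B' l hl1 hl2
  have h3 := hK (a + M A) (M B) (a' + M' A') (M' B') l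
    (by have := h1 _ hl1; rwa [map_add, map_smul, ← add_assoc] at this)
    (by have := h2 _ hl2; rwa [map_add, map_smul, ← add_assoc] at this)
  simpa only [map_add, map_smul, add_assoc] using h3

end SH

theorem det_factor {ι : Type*} [Fintype ι] {r : ℕ} (h : Fintype.card ι ≤ r)
    (u : Fin (r + 1) → ι → ℂ) (w : ι → Fin (r + 1) → ℂ) :
    (Matrix.of fun i j => ∑ l, u i l * w l j).det = 0 := by
  have hmul : (Matrix.of fun i j => ∑ l, u i l * w l j) = Matrix.of u * Matrix.of w := by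
    ext i j
    simp [Matrix.mul_apply]
  by_contra hne
  have hu : IsUnit (Matrix.of fun i j => ∑ l, u i l * w l j) :=
    (Matrix.isUnit_iff_isUnit_det _).mpr (isUnit_iff_ne_zero.mpr hne)
  have hr1 := Matrix.rank_of_isUnit _ hu
  have hr2 : (Matrix.of fun i j => ∑ l, u i l * w l j).rank ≤ Fintype.card ι := by
    rw [hmul]
    exact (Matrix.rank_mul_le_left _ _).trans (Matrix.rank_le_card_width _)
  rw [hr1, Fintype.card_fin] at hr2
  omega

section Ker

variable {E : Type*} [NormedAddCommGroup E] [NormedSpace ℂ E]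

/-- local polarisation of `p` -/
structure IsKer (p : E → ℝ) (K : E → E → ℂ) (Ω : Set E) : Prop where
  sh : SH K Ω
  dz : ∀ w ∈ Ω, DifferentiableOn ℂ (fun z => K z w) Ω
  diag : ∀ z ∈ Ω, K z z = p z

theorem IsKer.herm {p : E → ℝ} {K : E → E → ℂ} {Ω : Set E} (h : IsKer p K Ω) (hΩ : IsOpen Ω)
    (hc : Convex ℝ Ω) : ∀ z ∈ Ω, ∀ w ∈ Ω, K z w = conj (K w z) := by
  intro z hz w hw
  have := (h.sh.sub h.sh.swap).zero hΩ hc (fun x hx => by
    rw [h.diag x hx, Complex.conj_ofReal, sub_self]) z hz w hw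
  exact sub_eq_zero.mp this

theorem IsKer.mono {p : E → ℝ} {K : E → E → ℂ} {Ω Ω' : Set E} (h : IsKer p K Ω) (hs : Ω' ⊆ Ω) :
    IsKer p K Ω' :=
  ⟨h.sh.mono hs, fun w hw => (h.dz w (hs hw)).mono hs, fun z hz => h.diag z (hs hz)⟩

/-- lines in `Ω` -/
theorem line_open {Ω : Set E} (hΩ : IsOpen Ω) (a v : E) : IsOpen {s : ℂ | a + s • v ∈ Ω} :=
  hΩ.preimage (by fun_prop)

theorem line_convex {Ω : Set E} (hc : Convex ℝ Ω) (a v : E) : Convex ℝ {s : ℂ | a + s • v ∈ Ω} := by
  intro l hl m hm s t hs ht hst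
  have h3 : a + (s • l + t • m) • v = s • (a + l • v) + t • (a + m • v) := by
    have : a = (s + t) • a := by rw [hst, one_smul]
    nth_rewrite 1 [this]
    simp only [add_smul, smul_add, smul_assoc]
    abel
  change a + (s • l + t • m) • v ∈ Ω
  rw [h3]
  exact hc hl hm hs ht hst

/-- one dimensional polarisation -/
theorem IsKer.pol {p : E → ℝ} {K : E → E → ℂ} {Ω : Set E} (h : IsKer p K Ω) (hΩ : IsOpen Ω)
    (hc : Convex ℝ Ω) {k : ℕ} (a v : E) (ε : Fin k → ℝ) (g : Fin k → ℂ → ℂ)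
    (hg : ∀ j, Differentiable ℂ (g j))
    (hp : ∀ s : ℂ, p (a + s • v) = ∑ j, ε j * Complex.normSq (g j s)) (s t : ℂ)
    (hs : a + s • v ∈ Ω) (ht : a + t • v ∈ Ω) :
    K (a + s • v) (a + t • v) = ∑ j, (ε j : ℂ) * (g j s * conj (g j t)) := by
  have h1 : SH (fun s t : ℂ => K (a + s • v) (a + t • v)) {s : ℂ | a + s • v ∈ Ω} := by
    have := h.sh.comp a a (LinearMap.toSpanSingleton ℂ E v) (LinearMap.toSpanSingleton ℂ E v)
      (Ω' := {s : ℂ | a + s • v ∈ Ω}) (fun x hx => hx) (fun x hx => hx)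
    exact this
  have h2 : SH (fun s t : ℂ => ∑ j, (ε j : ℂ) * (g j s * conj (g j t))) {s : ℂ | a + s • v ∈ Ω} :=
    SH.sum _ fun j _ => SH.const_mul _ (SH.tensor (line_open hΩ a v) (hg j).differentiableOn
      (hg j).differentiableOn)
  have h3 := (h1.sub h2).zero (line_open hΩ a v) (line_convex hc a v) (fun x hx => by
    rw [h.diag _ hx, hp x]
    push_cast
    rw [sub_eq_zero]
    refine Finset.sum_congr rfl fun j _ => ?_
    rw [Complex.mul_conj]) s hs t ht
  exact sub_eq_zero.mp h3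

/-- the hypothesis on complex lines -/
def LineRank (p : E → ℝ) (k : ℕ) : Prop :=
  ∀ a v : E, ∃ (ε : Fin k → ℝ) (g : Fin k → ℂ → ℂ), (∀ j, Differentiable ℂ (g j)) ∧
    ∀ s : ℂ, p (a + s • v) = ∑ j, ε j * Complex.normSq (g j s)

/-- minors on pairs of lines vanish -/
theorem IsKer.minors {p : E → ℝ} {K : E → E → ℂ} {c : E} {R : ℝ} (h : IsKer p K (ball c R))
    {k : ℕ} (hl : LineRank p k) {a v a' v' : E}
    (ha : a ∈ ball c (R / 3)) (hv : v ∈ ball (0 : E) 2) (ha' : a' ∈ ball c (R / 3))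
    (hv' : v' ∈ ball (0 : E) 2) (s t : Fin (k + 1) → ℂ)
    (hs : ∀ i, s i ∈ ball (0 : ℂ) (R / 3)) (ht : ∀ i, t i ∈ ball (0 : ℂ) (R / 3)) :
    (Matrix.of fun i j => K (a + s i • v) (a' + t j • v')).det = 0 := by
  have hR : 0 < R / 3 := by
    by_contra hneg
    rw [ball_eq_empty.mpr (not_lt.mp hneg)] at ha
    exact ha
  have hin : ∀ (x : E × E), x ∈ ball c (R / 3) ×ˢ ball (0 : E) 2 → ∀ r ∈ ball (0 : ℂ) (R / 3),
      x.1 + r • x.2 ∈ ball c R := by
    rintro ⟨y, u⟩ ⟨hy, hu⟩ r hr
    simp only [mem_ball, dist_zero_right] at hy hu hr ⊢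
    calc dist (y + r • u) c = ‖(y - c) + r • u‖ := by
          rw [dist_eq_norm]; congr 1; abel
      _ ≤ ‖y - c‖ + ‖r • u‖ := norm_add_le _ _
      _ = dist y c + ‖r‖ * ‖u‖ := by rw [dist_eq_norm, norm_smul]
      _ < R / 3 + R / 3 * 2 := by
          apply add_lt_add hy
          rcases eq_or_lt_of_le (norm_nonneg u) with h0 | h0
          · rw [← h0, mul_zero]; positivity
          · calc ‖r‖ * ‖u‖ < R / 3 * ‖u‖ := mul_lt_mul_of_pos_right hr h0
              _ ≤ R / 3 * 2 := by gcongr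
      _ = R := by ring
  have h1 : SH (fun x y : E × E =>
      (Matrix.of fun i j => K (x.1 + s i • x.2) (y.1 + t j • y.2)).det)
      (ball c (R / 3) ×ˢ ball (0 : E) 2) := by
    apply SH.det
    intro i j
    have := h.sh.comp (E' := E × E) 0 0
      (LinearMap.fst ℂ E E + s i • LinearMap.snd ℂ E E)
      (LinearMap.fst ℂ E E + t j • LinearMap.snd ℂ E E)
      (Ω' := ball c (R / 3) ×ˢ ball (0 : E) 2)
      (fun x hx => by
        rw [zero_add]
        exact hin x hx (s i) (hs i))
      (fun x hx => by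
        rw [zero_add]
        exact hin x hx (t j) (ht j))
    simpa using this
  refine h1.zero (isOpen_ball.prod isOpen_ball) ((convex_ball _ _).prod (convex_ball _ _)) ?_
    (a, v) ⟨ha, hv⟩ (a', v') ⟨ha', hv'⟩
  rintro ⟨y, u⟩ hy
  obtain ⟨ε, g, hg, hp⟩ := hl y u
  have h2 : ∀ i j, K (y + s i • u) (y + t j • u) =
      ∑ l, ((ε l : ℂ) * g l (s i)) * conj (g l (t j)) := by
    intro i j
    rw [h.pol isOpen_ball (convex_ball _ _) y u ε g hg hp (s i) (t j) (hin (y, u) hy _ (hs i))
      (hin (y, u) hy _ (ht j))]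
    refine Finset.sum_congr rfl fun l _ => by ring
  simp only [h2]
  exact det_factor (by simp) (fun i l => (ε l : ℂ) * g l (s i)) (fun l j => conj (g l (t j)))

end Ker

/-- the local rank bound -/
theorem local_rank {n : ℕ} {p : (Fin n → ℂ) → ℝ} {K : (Fin n → ℂ) → (Fin n → ℂ) → ℂ}
    {c : Fin n → ℂ} {R : ℝ} (hR : 0 < R) (h : IsKer p K (ball c R)) {k : ℕ} (hl : LineRank p k) :
    RL (fun z (w : ball c (R / 3)) => K z w) (ball c (R / 3)) ((k ^ n) ^ n) := by
  have hR3 : 0 < R / 3 := by positivity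
  have hsub : ball c (R / 3) ⊆ ball c R := ball_subset_ball (by linarith)
  have hupd : ∀ (a : Fin n → ℂ) (i : Fin n) (s : ℂ), Function.update a i s =
      Function.update a i (c i) + (s - c i) • (Pi.single i 1 : Fin n → ℂ) := by
    intro a i s
    funext j
    by_cases hj : j = i
    · subst hj; simp
    · simp [Function.update_of_ne hj, Pi.single_eq_of_ne hj]
  have hsingle : ∀ i : Fin n, (Pi.single i 1 : Fin n → ℂ) ∈ ball (0 : Fin n → ℂ) 2 := by
    intro i
    rw [mem_ball, dist_zero_right, Pi.norm_single]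
    norm_num
  have hupdmem : ∀ (a : Fin n → ℂ) (i : Fin n) (s : ℂ), a ∈ ball c (R / 3) →
      s ∈ ball (c i) (R / 3) → Function.update a i s ∈ ball c (R / 3) := by
    intro a i s ha hs
    rw [mem_ball, dist_pi_lt_iff hR3] at ha ⊢
    intro j
    by_cases hj : j = i
    · subst hj; simpa using hs
    · simpa [Function.update_of_ne hj] using ha j
  have hsc : ∀ (i : Fin n) (s : ℂ), s ∈ ball (c i) (R / 3) → s - c i ∈ ball (0 : ℂ) (R / 3) := by
    intro i s hs
    rw [mem_ball, dist_zero_right]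
    rwa [mem_ball, dist_eq_norm] at hs
  -- step 1
  have step1 : ∀ a' ∈ ball c (R / 3), ∀ i' : Fin n,
      ML (fun z (t : ball (c i') (R / 3)) => K z (Function.update a' i' (t : ℂ)))
        (ball c (R / 3)) (k ^ n) := by
    intro a' ha' i'
    apply RL.ml
    apply polydisc_rank k n c (R / 3) _ hR3
    · rintro ⟨t, ht⟩
      exact (h.dz _ (hsub (hupdmem a' i' t ha' ht))).mono hsub
    · intro a ha i x t hx
      have := h.minors hl (a := Function.update a i (c i)) (v := Pi.single i 1)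
        (a' := Function.update a' i' (c i')) (v' := Pi.single i' 1)
        (hupdmem a i _ ha (mem_ball_self hR3)) (hsingle i)
        (hupdmem a' i' _ ha' (mem_ball_self hR3)) (hsingle i')
        (fun j => x j - c i) (fun j => (t j : ℂ) - c i') (fun j => hsc i _ (hx j))
        (fun j => hsc i' _ (t j).2)
      simp only [← hupd] at this
      exact this
  -- step 2
  apply polydisc_rank (k ^ n) n c (R / 3) _ hR3
  · rintro ⟨w, hw⟩
    exact (h.dz _ (hsub hw)).mono hsub
  · intro a ha i x t hx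
    have h1 := step1 a ha i (fun j => (t j : Fin n → ℂ)) (fun j => ⟨x j, hx j⟩)
      (fun j => (t j).2)
    have h2 : (Matrix.of fun i_1 j => K (Function.update a i (x i_1)) (t j : Fin n → ℂ)) =
        ((Matrix.of fun i_1 j => K (t i_1 : Fin n → ℂ) (Function.update a i (x j))).transpose).map
          (starRingEnd ℂ) := by
      ext r q
      simp only [Matrix.of_apply, Matrix.map_apply, Matrix.transpose_apply]
      exact h.herm isOpen_ball (convex_ball _ _) _ (hsub (hupdmem a i _ ha (hx r))) _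
        (hsub (t q).2)
    simp only
    rw [h2]
    have h3 := RingHom.map_det (starRingEnd ℂ)
      ((Matrix.of fun i_1 j => K (t i_1 : Fin n → ℂ) (Function.update a i (x j))).transpose)
    rw [RingHom.mapMatrix_apply] at h3
    rw [← h3, Matrix.det_transpose]
    simp only at h1
    rw [h1, map_zero]

section Complexify

variable {ι : Type} [Fintype ι] [DecidableEq ι]

/-- complexification of a real multilinear series -/
noncomputable def cplx (q : FormalMultilinearSeries ℝ (ι → ℝ) ℝ) :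
    FormalMultilinearSeries ℂ (ι → ℂ) ℂ := fun m =>
  ∑ s : Fin m → ι, ((q m (fun i => Pi.single (s i) (1 : ℝ)) : ℝ) : ℂ) •
    (ContinuousMultilinearMap.mkPiAlgebra ℂ (Fin m) ℂ).compContinuousLinearMap
      (fun i => (ContinuousLinearMap.proj (s i) : (ι → ℂ) →L[ℂ] ℂ))

theorem cplx_apply (q : FormalMultilinearSeries ℝ (ι → ℝ) ℝ) (m : ℕ) (v : Fin m → ι → ℂ) :
    cplx q m v = ∑ s : Fin m → ι, ((q m (fun i => Pi.single (s i) (1 : ℝ)) : ℝ) : ℂ) *
      ∏ i, v i (s i) := by
  unfold cplx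
  rw [_root_.sum_apply]
  refine Finset.sum_congr rfl fun s _ => ?_
  rw [_root_.smul_apply, ContinuousMultilinearMap.compContinuousLinearMap_apply,
    ContinuousMultilinearMap.mkPiAlgebra_apply]
  rfl

theorem cplx_real (q : FormalMultilinearSeries ℝ (ι → ℝ) ℝ) (m : ℕ) (y : ι → ℝ) :
    cplx q m (fun _ i => (y i : ℂ)) = ((q m (fun _ => y) : ℝ) : ℂ) := by
  rw [cplx_apply]
  have hy : y = ∑ j, y j • (Pi.single j 1 : ι → ℝ) := by
    conv_lhs => rw [← Finset.univ_sum_single y]
    refine Finset.sum_congr rfl fun j _ => ?_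
    rw [← Pi.single_smul]
    simp
  have h1 : q m (fun _ => y) = ∑ s : Fin m → ι, (∏ i, y (s i)) *
      q m (fun i => Pi.single (s i) (1 : ℝ)) := by
    conv_lhs => rw [show (fun _ : Fin m => y) = fun _ : Fin m => ∑ j, y j • (Pi.single j 1 : ι → ℝ)
      from funext fun _ => hy]
    rw [ContinuousMultilinearMap.map_sum]
    refine Finset.sum_congr rfl fun s _ => ?_
    rw [ContinuousMultilinearMap.map_smul_univ, smul_eq_mul]
  rw [h1]
  push_cast
  refine Finset.sum_congr rfl fun s _ => by ring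

theorem cplx_norm (q : FormalMultilinearSeries ℝ (ι → ℝ) ℝ) (m : ℕ) :
    ‖cplx q m‖ ≤ (Fintype.card ι : ℝ) ^ m * ‖q m‖ := by
  refine ContinuousMultilinearMap.opNorm_le_bound (by positivity) fun v => ?_
  rw [cplx_apply]
  calc ‖∑ s : Fin m → ι, ((q m (fun i => Pi.single (s i) (1 : ℝ)) : ℝ) : ℂ) * ∏ i, v i (s i)‖
      ≤ ∑ s : Fin m → ι, ‖q m‖ * ∏ i, ‖v i‖ := by
        refine norm_sum_le_of_le _ fun s _ => ?_
        rw [norm_mul, Complex.norm_real, norm_prod]
        refine mul_le_mul ?_ ?_ (by positivity) (by positivity)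
        · refine (ContinuousMultilinearMap.le_opNorm _ _).trans ?_
          rw [Finset.prod_eq_one, mul_one]
          intro i _
          rw [Pi.norm_single, norm_one]
        · refine Finset.prod_le_prod (fun _ _ => norm_nonneg _) fun i _ => norm_le_pi_norm (v i) (s i)
    _ = (Fintype.card ι : ℝ) ^ m * ‖q m‖ * ∏ i, ‖v i‖ := by
        rw [Finset.sum_const, Finset.card_univ, Fintype.card_fun, Fintype.card_fin, nsmul_eq_mul]
        push_cast
        ring

theorem cplx_radius (q : FormalMultilinearSeries ℝ (ι → ℝ) ℝ) (hq : 0 < q.radius) :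
    0 < (cplx q).radius := by
  obtain ⟨r, hr0, hr⟩ := ENNReal.lt_iff_exists_nnreal_btwn.mp hq
  have hr0' : 0 < r := by exact_mod_cast hr0
  obtain ⟨C, hC, hb⟩ := q.norm_mul_pow_le_of_lt_radius hr
  set d : ℝ≥0 := r / (Fintype.card ι + 1) with hd
  have hdpos : 0 < d := by positivity
  have h1 : (d : ℝ≥0∞) ≤ (cplx q).radius := by
    apply FormalMultilinearSeries.le_radius_of_bound _ C
    intro m
    have hle : (Fintype.card ι : ℝ) * d ≤ r := by
      rw [hd]
      push_cast
      rw [mul_div_assoc', div_le_iff₀ (by positivity)]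
      have : (0 : ℝ) ≤ r := r.2
      nlinarith
    calc ‖cplx q m‖ * (d : ℝ) ^ m ≤ ((Fintype.card ι : ℝ) ^ m * ‖q m‖) * (d : ℝ) ^ m := by
          gcongr
          exact cplx_norm q m
      _ = ‖q m‖ * ((Fintype.card ι : ℝ) * d) ^ m := by rw [mul_pow]; ring
      _ ≤ ‖q m‖ * (r : ℝ) ^ m := by gcongr
      _ ≤ C := hb m
  exact lt_of_lt_of_le (by exact_mod_cast hdpos) h1

/-- a real analytic function extends to a holomorphic function near a real point -/
theorem complexify {u : (ι → ℝ) → ℝ} {x0 : ι → ℝ} (hu : AnalyticAt ℝ u x0) :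
    ∃ R > 0, ∃ U : (ι → ℂ) → ℂ, DifferentiableOn ℂ U (ball (fun i => (x0 i : ℂ)) R) ∧
      ∀ x ∈ ball x0 R, U (fun i => (x i : ℂ)) = (u x : ℂ) := by
  obtain ⟨q, r, hq⟩ := hu
  have hqr : 0 < q.radius := lt_of_lt_of_le hq.r_pos hq.r_le
  have hcr := cplx_radius q hqr
  have hQ := (cplx q).hasFPowerSeriesOnBall hcr
  -- a common radius
  obtain ⟨R, hR0, hR⟩ : ∃ R : ℝ≥0, 0 < R ∧ (R : ℝ≥0∞) < min r (cplx q).radius := by
    obtain ⟨R, h1, h2⟩ := ENNReal.lt_iff_exists_nnreal_btwn.mp (lt_min hq.r_pos hcr)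
    exact ⟨R, by exact_mod_cast h1, h2⟩
  refine ⟨R, hR0, fun z => (cplx q).sum (z - fun i => (x0 i : ℂ)), ?_, ?_⟩
  · have hd : DifferentiableOn ℂ (cplx q).sum (Metric.eball 0 (cplx q).radius) := hQ.differentiableOn
    refine hd.comp (by fun_prop) ?_
    intro z hz
    have hz' : ‖z - fun i => (x0 i : ℂ)‖ < R := by
      rwa [mem_ball, dist_eq_norm] at hz
    rw [Metric.mem_eball, edist_zero_right]
    refine lt_of_lt_of_le ?_ (hR.le.trans (min_le_right _ _))
    rw [← ofReal_norm]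
    rw [ENNReal.ofReal_lt_coe_iff (norm_nonneg _)]
    exact hz'
  · intro x hx
    have hx' : ‖x - x0‖ < R := by rwa [mem_ball, dist_eq_norm] at hx
    have h1 : x - x0 ∈ Metric.eball (0 : ι → ℝ) r := by
      rw [Metric.mem_eball, edist_zero_right]
      refine lt_of_lt_of_le ?_ (hR.le.trans (min_le_left _ _))
      rw [← ofReal_norm, ENNReal.ofReal_lt_coe_iff (norm_nonneg _)]
      exact hx'
    have hs1 := hq.hasSum h1
    rw [add_sub_cancel] at hs1
    have heq : ((fun i => (x i : ℂ)) - fun i => (x0 i : ℂ)) = fun i => ((x - x0) i : ℂ) := by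
      funext i; simp
    have hn : ‖(fun i => ((x - x0) i : ℂ) : ι → ℂ)‖ < R := by
      refine lt_of_le_of_lt ?_ hx'
      rw [pi_norm_le_iff_of_nonneg (norm_nonneg _)]
      intro i
      rw [Complex.norm_real]
      exact norm_le_pi_norm (x - x0) i
    have h2 : (fun i => ((x - x0) i : ℂ) : ι → ℂ) ∈ Metric.eball (0 : ι → ℂ) (cplx q).radius := by
      rw [Metric.mem_eball, edist_zero_right]
      refine lt_of_lt_of_le ?_ (hR.le.trans (min_le_right _ _))
      rw [← ofReal_norm, ENNReal.ofReal_lt_coe_iff (norm_nonneg _)]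
      exact hn
    have hs2 := hQ.hasSum h2
    rw [zero_add] at hs2
    simp only
    rw [heq]
    have hs3 : HasSum (fun m => ((q m (fun _ => x - x0) : ℝ) : ℂ)) (u x : ℂ) :=
      Complex.hasSum_ofReal.mpr hs1
    have hfun : (fun m => cplx q m fun _ => fun i => ((x - x0) i : ℂ)) =
        fun m => ((q m (fun _ => x - x0) : ℝ) : ℂ) := funext fun m => cplx_real q m (x - x0)
    rw [hfun] at hs2
    exact hs2.unique hs3

end Complexify

/-- the local polarisation of a real analytic function -/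
theorem exists_ker {n : ℕ} (p : (Fin n → ℂ) → ℝ) (c : Fin n → ℂ) (hp : AnalyticAt ℝ p c) :
    ∃ R > 0, ∃ K : (Fin n → ℂ) → (Fin n → ℂ) → ℂ, IsKer p K (ball c R) := by
  -- real coordinates
  let Ψ : (Fin n ⊕ Fin n → ℝ) →ₗ[ℝ] (Fin n → ℂ) :=
    { toFun := fun x j => (x (Sum.inl j) : ℂ) + (x (Sum.inr j) : ℂ) * Complex.I
      map_add' := by intro x y; funext j; simp; ring
      map_smul' := by intro a x; funext j; simp; ring }
  let x0 : Fin n ⊕ Fin n → ℝ := Sum.elim (fun j => (c j).re) (fun j => (c j).im)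
  have hx0 : Ψ x0 = c := by
    funext j
    simp [Ψ, x0]
  have hu : AnalyticAt ℝ (p ∘ Ψ) x0 := by
    apply AnalyticAt.comp
    · rw [hx0]; exact hp
    · exact (LinearMap.toContinuousLinearMap Ψ).analyticAt x0
  obtain ⟨R, hR, U, hU, hUr⟩ := complexify hu
  let ξ : (Fin n → ℂ) → (Fin n → ℂ) → (Fin n ⊕ Fin n → ℂ) := fun z w =>
    Sum.elim (fun j => (z j + conj (w j)) / 2) (fun j => -Complex.I / 2 * (z j - conj (w j)))
  have hre : ∀ a : ℂ, (a.re : ℂ) = (a + conj a) / 2 := by
    intro a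
    rw [Complex.add_conj]; push_cast; ring
  have him : ∀ a : ℂ, (a.im : ℂ) = -Complex.I / 2 * (a - conj a) := by
    intro a
    rw [Complex.sub_conj]
    push_cast
    linear_combination (a.im : ℂ) * Complex.I_mul_I
  have hξ : ∀ z ∈ ball c R, ∀ w ∈ ball c R, ξ z w ∈ ball (fun i => (x0 i : ℂ)) R := by
    intro z hz w hw
    rw [mem_ball, dist_pi_lt_iff hR] at hz hw ⊢
    intro i
    have hconj : ∀ j, ‖conj (w j) - conj (c j)‖ < R := by
      intro j
      rw [← map_sub, RCLike.norm_conj, ← dist_eq_norm]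
      exact hw j
    rcases i with j | j
    · simp only [ξ, x0, Sum.elim_inl]
      rw [hre, dist_eq_norm]
      have h1 : (z j + conj (w j)) / 2 - (c j + conj (c j)) / 2 =
          (1 / 2 : ℂ) * ((z j - c j) + (conj (w j) - conj (c j))) := by ring
      rw [h1, norm_mul]
      have h2 := norm_add_le (z j - c j) (conj (w j) - conj (c j))
      have h3 := hz j
      rw [dist_eq_norm] at h3
      have h4 := hconj j
      have h5 : ‖(1 / 2 : ℂ)‖ = 1 / 2 := by norm_num
      rw [h5]
      linarith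
    · simp only [ξ, x0, Sum.elim_inr]
      rw [him, dist_eq_norm]
      have h1 : -Complex.I / 2 * (z j - conj (w j)) - -Complex.I / 2 * (c j - conj (c j)) =
          (-Complex.I / 2) * ((z j - c j) - (conj (w j) - conj (c j))) := by ring
      rw [h1, norm_mul]
      have h2 := norm_sub_le (z j - c j) (conj (w j) - conj (c j))
      have h3 := hz j
      rw [dist_eq_norm] at h3
      have h4 := hconj j
      have h5 : ‖(-Complex.I / 2 : ℂ)‖ = 1 / 2 := by simp
      rw [h5]
      linarith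
  refine ⟨R, hR, fun z w => U (ξ z w), ?_, ?_, ?_⟩
  · intro A B A' B' l h1 h2
    have h3 : DifferentiableAt ℂ U (ξ (A + l • B) (A' + conj l • B')) :=
      hU.differentiableAt (isOpen_ball.mem_nhds (hξ _ h1 _ h2))
    have h4 : DifferentiableAt ℂ (fun l : ℂ => ξ (A + l • B) (A' + conj l • B')) l := by
      rw [differentiableAt_pi]
      intro i
      rcases i with j | j
      · simp only [ξ, Sum.elim_inl, Pi.add_apply, Pi.smul_apply, smul_eq_mul, map_add, map_mul,
          Complex.conj_conj]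
        fun_prop
      · simp only [ξ, Sum.elim_inr, Pi.add_apply, Pi.smul_apply, smul_eq_mul, map_add, map_mul,
          Complex.conj_conj]
        fun_prop
    exact DifferentiableAt.comp l h3 h4
  · intro w hw
    refine hU.comp (Differentiable.differentiableOn ?_) (fun z hz => hξ z hz w hw)
    rw [differentiable_pi]
    intro i
    rcases i with j | j
    · simp only [ξ, Sum.elim_inl]
      fun_prop
    · simp only [ξ, Sum.elim_inr]
      fun_prop
  · intro z hz
    have h1 : ξ z z = fun i => ((Sum.elim (fun j => (z j).re) (fun j => (z j).im) :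
        Fin n ⊕ Fin n → ℝ) i : ℂ) := by
      funext i
      rcases i with j | j
      · simp only [ξ, Sum.elim_inl]; rw [hre]
      · simp only [ξ, Sum.elim_inr]; rw [him]
    rw [h1, hUr]
    · have h2 : Ψ (Sum.elim (fun j => (z j).re) (fun j => (z j).im)) = z := by
        funext j
        simp [Ψ]
      change ((p (Ψ (Sum.elim (fun j => (z j).re) (fun j => (z j).im))) : ℝ) : ℂ) = _
      rw [h2]
    · rw [mem_ball, dist_pi_lt_iff hR] at hz ⊢
      intro i
      rcases i with j | j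
      · simp only [x0, Sum.elim_inl]
        refine lt_of_le_of_lt ?_ (hz j)
        rw [Real.dist_eq, dist_eq_norm, ← Complex.sub_re]
        exact Complex.abs_re_le_norm _
      · simp only [x0, Sum.elim_inr]
        refine lt_of_le_of_lt ?_ (hz j)
        rw [Real.dist_eq, dist_eq_norm, ← Complex.sub_im]
        exact Complex.abs_im_le_norm _

section Spread

variable {E : Type*} [NormedAddCommGroup E] [NormedSpace ℂ E]

/-- the columns of a finite rank kernel are spanned by those of a small open set -/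
theorem IsKer.span_open {p : E → ℝ} {K : E → E → ℂ} {c : E} {R : ℝ} (h : IsKer p K (ball c R))
    {N : ℕ} (hr : RL (fun z (w : ball c R) => K z w) (ball c R) N) {O : Set E} (hO : IsOpen O)
    (hOB : O ⊆ ball c R) (hne : O.Nonempty) :
    ∃ (r : ℕ) (x : Fin r → E) (β : E → Fin r → ℂ), r ≤ N ∧ (∀ j, x j ∈ O) ∧
      ∀ w ∈ ball c R, ∀ z ∈ ball c R, K z w = ∑ j, β w j * K z (x j) := by
  have hml : ML (fun z (w : ball c R) => K z w) O N := by
    intro x t hx
    exact hr.ml x t (fun i => hOB (hx i))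
  obtain ⟨r, hrN, x, τ, M, hx, hsk⟩ := skeleton _ O N hml
  refine ⟨r, x, fun w j => conj (∑ i, K w (τ i) * M i j), hrN, hx, ?_⟩
  intro w hw z hz
  have key : K w z = ∑ i, ∑ j, K w (τ i) * M i j * K (x j) z := by
    obtain ⟨y0, hy0⟩ := hne
    have h1 := identE (f := fun w => K w z - ∑ i, ∑ j, K w (τ i) * M i j * K (x j) z)
      isOpen_ball (convex_ball c R) (by
        refine (h.dz z hz).sub ?_
        refine DifferentiableOn.fun_sum fun i _ => ?_
        refine DifferentiableOn.fun_sum fun j _ => ?_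
        exact ((h.dz _ (τ i).2).mul_const _).mul_const _) (hOB hy0) (by
        filter_upwards [hO.mem_nhds hy0] with y hy
        have := hsk y hy ⟨z, hz⟩
        simp only at this
        simp only [Pi.zero_apply]
        rw [sub_eq_zero]
        exact this) w hw
    exact sub_eq_zero.mp h1
  rw [h.herm isOpen_ball (convex_ball _ _) z hz w hw, key, Finset.sum_comm, map_sum]
  refine Finset.sum_congr rfl fun j _ => ?_
  change conj (∑ i, K w (τ i) * M i j * K (x j) z) = conj (∑ i, K w (τ i) * M i j) * K z (x j)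
  rw [h.herm isOpen_ball (convex_ball _ _) z hz (x j) (hOB (hx j)), ← map_mul, Finset.sum_mul]

/-- the space of functions attached to a local kernel -/
def InV (K : E → E → ℂ) (B : Set E) (f : E → ℂ) : Prop :=
  ∃ (m : ℕ) (α : Fin m → ℂ) (w : Fin m → E), (∀ i, w i ∈ B) ∧ ∀ z ∈ B, f z = ∑ i, α i * K z (w i)

theorem InV.diff {p : E → ℝ} {K : E → E → ℂ} {B : Set E} (h : IsKer p K B) {f : E → ℂ}
    (hf : InV K B f) : DifferentiableOn ℂ f B := by
  obtain ⟨m, α, w, hw, hf⟩ := hf
  have h1 : DifferentiableOn ℂ (fun z => ∑ i, α i * K z (w i)) B :=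
    DifferentiableOn.fun_sum fun i _ => (h.dz _ (hw i)).const_mul _
  exact h1.congr hf

/-- transfer between overlapping balls -/
theorem InV.transfer {p : E → ℝ} {K K' : E → E → ℂ} {c c' : E} {R R' : ℝ}
    (h : IsKer p K (ball c R)) (h' : IsKer p K' (ball c' R')) {N : ℕ}
    (hr : RL (fun z (w : ball c R) => K z w) (ball c R) N) {x : E} (hx : x ∈ ball c R)
    (hx' : x ∈ ball c' R') {f : E → ℂ} (hf : InV K (ball c R) f) :
    ∃ f', InV K' (ball c' R') f' ∧ ∀ z ∈ ball c R ∩ ball c' R', f z = f' z := by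
  set O : Set E := ball c R ∩ ball c' R' with hO
  have hOo : IsOpen O := isOpen_ball.inter isOpen_ball
  have hOc : Convex ℝ O := (convex_ball _ _).inter (convex_ball _ _)
  obtain ⟨r, y, β, -, hy, hβ⟩ := h.span_open hr hOo Set.inter_subset_left ⟨x, hx, hx'⟩
  have hKK : ∀ z ∈ O, ∀ w ∈ O, K z w = K' z w := by
    intro z hz w hw
    have := ((h.sh.mono Set.inter_subset_left).sub (h'.sh.mono Set.inter_subset_right)).zero
      hOo hOc (fun x hx => by rw [h.diag x hx.1, h'.diag x hx.2, sub_self]) z hz w hw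
    exact sub_eq_zero.mp this
  obtain ⟨m, α, w, hw, hf⟩ := hf
  refine ⟨fun z => ∑ j, (∑ i, α i * β (w i) j) * K' z (y j),
    ⟨r, fun j => ∑ i, α i * β (w i) j, y, fun j => (hy j).2, fun z _ => rfl⟩, ?_⟩
  intro z hz
  rw [hf z hz.1]
  calc ∑ i, α i * K z (w i) = ∑ i, ∑ j, α i * (β (w i) j * K z (y j)) := by
        refine Finset.sum_congr rfl fun i _ => ?_
        rw [hβ (w i) (hw i) z hz.1, Finset.mul_sum]
    _ = ∑ j, ∑ i, α i * (β (w i) j * K z (y j)) := Finset.sum_comm
    _ = ∑ j, (∑ i, α i * β (w i) j) * K' z (y j) := by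
        refine Finset.sum_congr rfl fun j _ => ?_
        rw [Finset.sum_mul]
        refine Finset.sum_congr rfl fun i _ => ?_
        rw [hKK z hz (y j) (hy j)]
        ring

/-- radial propagation -/
theorem radial {H f : E → ℂ} {w0 v c : E} {δ : ℝ} (hH : ∀ u, Differentiable ℂ fun s : ℂ => H (w0 + s • u))
    (hf : DifferentiableOn ℂ f (ball c δ)) {t1 t2 : ℝ} (ht2 : t2 ≠ 0)
    (h1 : w0 + (t1 : ℂ) • v ∈ ball c δ) (h2 : w0 + (t2 : ℂ) • v ∈ ball c δ)
    (heq : H =ᶠ[𝓝 (w0 + (t1 : ℂ) • v)] f) : H =ᶠ[𝓝 (w0 + (t2 : ℂ) • v)] f := by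
  have ht2' : (t2 : ℂ) ≠ 0 := by exact_mod_cast ht2
  obtain ⟨W, hW1, hWo, hW2⟩ := _root_.eventually_nhds_iff.mp heq
  -- the direction through `y`
  have hu : Continuous fun y : E => (t2 : ℂ)⁻¹ • (y - w0) := by fun_prop
  have huv : (t2 : ℂ)⁻¹ • (w0 + (t2 : ℂ) • v - w0) = v := by
    rw [add_sub_cancel_left, smul_smul, inv_mul_cancel₀ ht2', one_smul]
  have hc1 : Continuous fun y : E => w0 + (t1 : ℂ) • ((t2 : ℂ)⁻¹ • (y - w0)) := by fun_prop
  have htend : Filter.Tendsto (fun y : E => w0 + (t1 : ℂ) • ((t2 : ℂ)⁻¹ • (y - w0)))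
      (𝓝 (w0 + (t2 : ℂ) • v)) (𝓝 (w0 + (t1 : ℂ) • v)) := by
    have := hc1.tendsto (w0 + (t2 : ℂ) • v)
    rwa [huv] at this
  have e1 : ∀ᶠ y in 𝓝 (w0 + (t2 : ℂ) • v), w0 + (t1 : ℂ) • ((t2 : ℂ)⁻¹ • (y - w0)) ∈ W :=
    htend.eventually (hWo.mem_nhds hW2)
  have e2 : ∀ᶠ y in 𝓝 (w0 + (t2 : ℂ) • v), w0 + (t1 : ℂ) • ((t2 : ℂ)⁻¹ • (y - w0)) ∈ ball c δ :=
    htend.eventually (isOpen_ball.mem_nhds h1)
  have e3 : ∀ᶠ y in 𝓝 (w0 + (t2 : ℂ) • v), y ∈ ball c δ := isOpen_ball.mem_nhds h2
  filter_upwards [e1, e2, e3] with y hy1 hy2 hy3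
  obtain ⟨u, hudef⟩ : ∃ u : E, u = (t2 : ℂ)⁻¹ • (y - w0) := ⟨_, rfl⟩
  rw [← hudef] at hy1 hy2
  have hyu : y = w0 + (t2 : ℂ) • u := by
    rw [hudef, smul_smul, mul_inv_cancel₀ ht2', one_smul, add_sub_cancel]
  have hopen := line_open (isOpen_ball (x := c) (ε := δ)) w0 u
  have hconv := line_convex (convex_ball c δ) w0 u
  have hd : DifferentiableOn ℂ (fun s : ℂ => H (w0 + s • u) - f (w0 + s • u))
      {s : ℂ | w0 + s • u ∈ ball c δ} := by
    refine (hH u).differentiableOn.sub ?_
    exact hf.comp (by fun_prop) (fun s hs => hs)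
  have hz := ident1 hopen hconv hd (a := (t1 : ℂ)) hy2 (by
    have : Filter.Tendsto (fun s : ℂ => w0 + s • u) (𝓝 (t1 : ℂ)) (𝓝 (w0 + (t1 : ℂ) • u)) :=
      (Continuous.tendsto (by fun_prop) _)
    filter_upwards [this.eventually (hWo.mem_nhds hy1)] with s hs
    simp only [Pi.zero_apply]
    rw [hW1 _ hs, sub_self]) (t2 : ℂ) (by rw [hyu] at hy3; exact hy3)
  rw [hyu]
  exact sub_eq_zero.mp hz

/-- global continuation along rays -/
theorem continuation {p : E → ℝ} {N : ℕ} (R : E → ℝ) (hR : ∀ c, 0 < R c) (K : E → E → E → ℂ)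
    (hK : ∀ c, IsKer p (K c) (ball c (R c)))
    (hr : ∀ c, RL (fun z (w : ball c (R c)) => K c z w) (ball c (R c)) N)
    {H : E → ℂ} {w0 : E} (hH : ∀ u, Differentiable ℂ fun s : ℂ => H (w0 + s • u))
    (h0 : ∃ f, InV (K w0) (ball w0 (R w0)) f ∧ H =ᶠ[𝓝 w0] f) :
    Differentiable ℂ H := by
  -- the property along a ray
  have main : ∀ v : E, ∀ t ∈ Set.Icc (0 : ℝ) 1, ∃ f, InV (K (w0 + (t : ℂ) • v))
      (ball (w0 + (t : ℂ) • v) (R (w0 + (t : ℂ) • v))) f ∧ H =ᶠ[𝓝 (w0 + (t : ℂ) • v)] f := by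
    intro v t ht
    set P : ℝ → Prop := fun t => ∃ f, InV (K (w0 + (t : ℂ) • v))
      (ball (w0 + (t : ℂ) • v) (R (w0 + (t : ℂ) • v))) f ∧ H =ᶠ[𝓝 (w0 + (t : ℂ) • v)] f with hP
    have hP0 : P 0 := by
      simp only [hP, Complex.ofReal_zero, zero_smul, add_zero]
      exact h0
    have hstep : ∀ t ∈ Set.Icc (0 : ℝ) 1, ∀ᶠ t' in 𝓝[Set.Icc (0 : ℝ) 1] t,
        (P t → P t') ∧ (P t' → P t) := by
      intro t ht
      apply nhdsWithin_le_nhds
      have hcont : Continuous fun t' : ℝ => w0 + (t' : ℂ) • v := by fun_prop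
      have hev : ∀ᶠ t' : ℝ in 𝓝 t, w0 + (t' : ℂ) • v ∈ ball (w0 + (t : ℂ) • v) (R (w0 + (t : ℂ) • v)) :=
        (hcont.tendsto t).eventually (isOpen_ball.mem_nhds (mem_ball_self (hR _)))
      filter_upwards [hev] with t' ht'
      constructor
      · rintro ⟨f, hf, hHf⟩
        by_cases h0' : t' = 0
        · rw [h0']; exact hP0
        · have h1 := radial hH (hf.diff (hK _)) h0' (mem_ball_self (hR _)) ht' hHf
          obtain ⟨f', hf', hff'⟩ := InV.transfer (hK _) (hK (w0 + (t' : ℂ) • v)) (hr _) ht'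
            (mem_ball_self (hR _)) hf
          refine ⟨f', hf', h1.trans ?_⟩
          filter_upwards [(isOpen_ball.inter isOpen_ball).mem_nhds ⟨ht', mem_ball_self (hR _)⟩]
            with z hz
          exact hff' z hz
      · rintro ⟨f, hf, hHf⟩
        by_cases h0' : t = 0
        · rw [h0']; exact hP0
        · obtain ⟨f', hf', hff'⟩ := InV.transfer (hK (w0 + (t' : ℂ) • v)) (hK (w0 + (t : ℂ) • v))
            (hr _) (mem_ball_self (hR _)) ht' hf
          have h2 : H =ᶠ[𝓝 (w0 + (t' : ℂ) • v)] f' := by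
            refine hHf.trans ?_
            filter_upwards [(isOpen_ball.inter isOpen_ball).mem_nhds ⟨mem_ball_self (hR _), ht'⟩]
              with z hz
            exact hff' z hz
          exact ⟨f', hf', radial hH (hf'.diff (hK _)) h0' ht' (mem_ball_self (hR _)) h2⟩
    have := (isPreconnected_Icc (a := (0 : ℝ)) (b := 1)).induction₂' (fun t t' => P t → P t')
      hstep (fun x y z _ _ _ h1 h2 h3 => h2 (h1 h3)) (Set.left_mem_Icc.mpr zero_le_one) ht
    exact this hP0
  intro z
  obtain ⟨f, hf, hHf⟩ := main (z - w0) 1 (Set.right_mem_Icc.mpr zero_le_one)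
  have hz : w0 + ((1 : ℝ) : ℂ) • (z - w0) = z := by
    rw [Complex.ofReal_one, one_smul, add_sub_cancel]
  rw [hz] at hf hHf
  have h1 : DifferentiableAt ℂ f z :=
    (hf.diff (hK z)).differentiableAt (isOpen_ball.mem_nhds (mem_ball_self (hR z)))
  exact h1.congr_of_eventuallyEq hHf

end Spread

/-- `p` has a representation `p(z, z̄) = ∑ εⱼ |fⱼ(z)|²` of length `N`, with `εⱼ = ±1` and `fⱼ`
holomorphic on `ℂᵐ`. -/
def HasRep {m : ℕ} (p : (Fin m → ℂ) → ℝ) (N : ℕ) : Prop :=
  ∃ (ε : Fin N → ℝ) (f : Fin N → (Fin m → ℂ) → ℂ), (∀ j, ε j = 1 ∨ ε j = -1) ∧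
    (∀ j, Differentiable ℂ (f j)) ∧ ∀ z, p z = ∑ j, ε j * ‖f j z‖ ^ 2

theorem HasRep.succ {m : ℕ} {p : (Fin m → ℂ) → ℝ} {N : ℕ} (h : HasRep p N) : HasRep p (N + 1) := by
  obtain ⟨ε, f, h1, h2, h3⟩ := h
  refine ⟨Fin.cons 1 ε, Fin.cons 0 f, ?_, ?_, ?_⟩
  · intro j
    refine Fin.cases ?_ (fun i => ?_) j
    · left; rfl
    · exact h1 i
  · intro j
    refine Fin.cases ?_ (fun i => ?_) j
    · exact differentiable_const 0
    · exact h2 i
  · intro z
    rw [Fin.sum_univ_succ, h3 z]
    simp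

theorem HasRep.mono {m : ℕ} {p : (Fin m → ℂ) → ℝ} {N N' : ℕ} (h : HasRep p N) (hN : N ≤ N') :
    HasRep p N' := by
  induction N', hN using Nat.le_induction with
  | base => exact h
  | succ n _ ih => exact ih.succ

theorem HasRep.of_index {m : ℕ} {p : (Fin m → ℂ) → ℝ} {ι : Type} [Fintype ι] (ε : ι → ℝ)
    (f : ι → (Fin m → ℂ) → ℂ) (h1 : ∀ j, ε j = 1 ∨ ε j = -1) (h2 : ∀ j, Differentiable ℂ (f j))
    (h3 : ∀ z, p z = ∑ j, ε j * ‖f j z‖ ^ 2) : HasRep p (Fintype.card ι) := by
  refine ⟨fun j => ε ((Fintype.equivFin ι).symm j), fun j => f ((Fintype.equivFin ι).symm j),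
    fun j => h1 _, fun j => h2 _, fun z => ?_⟩
  rw [h3 z]
  exact (Equiv.sum_comp (Fintype.equivFin ι).symm (fun j => ε j * ‖f j z‖ ^ 2)).symm

/-- the bound when all restrictions to complex lines have rank at most `k` -/
theorem main_lines {n : ℕ} (p : (Fin n → ℂ) → ℝ) (hp : ∀ c, AnalyticAt ℝ p c) (k : ℕ)
    (hl : LineRank p k) : HasRep p (2 * (k ^ n) ^ n) := by
  obtain ⟨N, hN⟩ : ∃ N, N = (k ^ n) ^ n := ⟨_, rfl⟩
  choose R0 hR0 K hK0 using fun c => exists_ker p c (hp c)
  have hR : ∀ c, 0 < R0 c / 3 := fun c => by have := hR0 c; positivity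
  have hK : ∀ c, IsKer p (K c) (ball c (R0 c / 3)) := fun c =>
    (hK0 c).mono (ball_subset_ball (by have := hR0 c; linarith))
  have hr : ∀ c, RL (fun z (w : ball c (R0 c / 3)) => K c z w) (ball c (R0 c / 3)) N := fun c => by
    rw [hN]; exact local_rank (hR0 c) (hK0 c) hl
  have hl' := hl
  choose ε g hg hrep using hl'
  -- the global kernel
  obtain ⟨Kg, hKg⟩ : ∃ Kg : (Fin n → ℂ) → (Fin n → ℂ) → ℂ, Kg = fun z w =>
    ∑ j, (ε w (z - w) j : ℂ) * (g w (z - w) j 1 * conj (g w (z - w) j 0)) := ⟨_, rfl⟩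
  have hSH : ∀ (w u : Fin n → ℂ) (s : ℂ), SH (fun t t' : ℂ =>
      ∑ j, (ε w u j : ℂ) * (g w u j (t * s) * conj (g w u j (t' * s)))) Set.univ := by
    intro w u s
    refine SH.sum _ fun j _ => SH.const_mul _ (SH.tensor isOpen_univ ?_ ?_)
    · exact ((hg w u j).comp (differentiable_id.mul_const s)).differentiableOn
    · exact ((hg w u j).comp (differentiable_id.mul_const s)).differentiableOn
  have hdiag : ∀ (w u : Fin n → ℂ) (s t : ℂ),
      ∑ j, (ε w u j : ℂ) * (g w u j (t * s) * conj (g w u j (t * s))) = (p (w + (t * s) • u) : ℂ) := by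
    intro w u s t
    rw [hrep w u (t * s)]
    push_cast
    refine Finset.sum_congr rfl fun j _ => ?_
    rw [Complex.mul_conj]
  have fact1 : ∀ (w u : Fin n → ℂ) (s : ℂ), Kg (w + s • u) w =
      ∑ j, (ε w u j : ℂ) * (g w u j s * conj (g w u j 0)) := by
    intro w u s
    have h1 := ((hSH w (s • u) 1).sub (hSH w u s)).zero isOpen_univ convex_univ
      (fun t _ => by
        rw [hdiag, hdiag, mul_one, smul_smul, sub_self]) 1 (Set.mem_univ _) 0 (Set.mem_univ _)
    rw [sub_eq_zero] at h1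
    rw [hKg]
    simp only [add_sub_cancel_left]
    simp only [mul_one, one_mul, zero_mul] at h1
    exact h1
  have fact2 : ∀ c, ∀ z ∈ ball c (R0 c / 3), ∀ w ∈ ball c (R0 c / 3), Kg z w = K c z w := by
    intro c z hz w hw
    have h1 := (hK c).pol isOpen_ball (convex_ball _ _) w (z - w) (ε w (z - w)) (g w (z - w))
      (hg w (z - w)) (hrep w (z - w)) 1 0 (by rw [one_smul, add_sub_cancel]; exact hz)
      (by rw [zero_smul, add_zero]; exact hw)
    rw [one_smul, add_sub_cancel, zero_smul, add_zero] at h1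
    rw [h1, hKg]
  have hent : ∀ w, Differentiable ℂ fun z => Kg z w := by
    intro w
    apply continuation (p := p) (N := N) (fun c => R0 c / 3) hR K hK hr (w0 := w)
    · intro u
      have : (fun s : ℂ => Kg (w + s • u) w) = fun s =>
          ∑ j, (ε w u j : ℂ) * (g w u j s * conj (g w u j 0)) := funext fun s => fact1 w u s
      rw [this]
      exact Differentiable.fun_sum fun j _ => ((hg w u j).mul_const _).const_mul _
    · refine ⟨fun z => K w z w, ⟨1, fun _ => 1, fun _ => w, fun _ => mem_ball_self (hR w),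
        fun z _ => by simp⟩, ?_⟩
      filter_upwards [isOpen_ball.mem_nhds (mem_ball_self (hR w))] with z hz
      exact fact2 w z hz w (mem_ball_self (hR w))
  -- the base point
  obtain ⟨r, hrN, x, τ, M, hx, hsk⟩ := skeleton _ _ N (hr 0).ml
  obtain ⟨A, hA⟩ : ∃ A : Fin r → (Fin n → ℂ) → ℂ, A = fun j z => ∑ i, Kg z (τ i) * M i j := ⟨_, rfl⟩
  obtain ⟨B, hB⟩ : ∃ B : Fin r → (Fin n → ℂ) → ℂ, B = fun j z => Kg z (x j) := ⟨_, rfl⟩
  have hAd : ∀ j, Differentiable ℂ (A j) := by
    intro j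
    rw [hA]
    exact Differentiable.fun_sum fun i _ => (hent _).mul_const _
  have hBd : ∀ j, Differentiable ℂ (B j) := by
    intro j
    rw [hB]
    exact hent _
  have hnear : ∀ z ∈ ball (0 : Fin n → ℂ) (R0 0 / 3), (p z : ℂ) = ∑ j, A j z * conj (B j z) := by
    intro z hz
    rw [← (hK 0).diag z hz]
    have h1 := hsk z hz ⟨z, hz⟩
    simp only at h1
    rw [h1, Finset.sum_comm]
    refine Finset.sum_congr rfl fun j _ => ?_
    rw [hA, hB]
    simp only
    rw [Finset.sum_mul]
    refine Finset.sum_congr rfl fun i _ => ?_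
    rw [fact2 0 z hz _ (τ i).2, fact2 0 z hz _ (hx j),
      (hK 0).herm isOpen_ball (convex_ball _ _) (x j) (hx j) z hz]
  have hglob : ∀ z, (p z : ℂ) = ∑ j, A j z * conj (B j z) := by
    intro z
    have hS1 : SH (fun s t : ℂ => ∑ j, (ε 0 z j : ℂ) * (g 0 z j (s * 1) * conj (g 0 z j (t * 1))))
      Set.univ := hSH 0 z 1
    have hS2 : SH (fun s t : ℂ => ∑ j, A j (s • z) * conj (B j (t • z))) Set.univ := by
      refine SH.sum _ fun j _ => SH.tensor isOpen_univ ?_ ?_
      · exact ((hAd j).comp (differentiable_id.smul_const z)).differentiableOn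
      · exact ((hBd j).comp (differentiable_id.smul_const z)).differentiableOn
    have hS := hS1.sub hS2
    obtain ⟨ρ, hρ⟩ : ∃ ρ, ρ = R0 0 / 3 / (‖z‖ + 1) := ⟨_, rfl⟩
    have hρ0 : 0 < ρ := by rw [hρ]; have := hR 0; positivity
    have hin : ∀ s ∈ ball (0 : ℂ) ρ, s • z ∈ ball (0 : Fin n → ℂ) (R0 0 / 3) := by
      intro s hs
      rw [mem_ball, dist_zero_right] at hs ⊢
      rw [hρ, lt_div_iff₀ (by positivity)] at hs
      rw [norm_smul]
      nlinarith [norm_nonneg s, norm_nonneg z]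
    have hz0 := (hS.mono (Set.subset_univ (ball (0 : ℂ) ρ))).zero isOpen_ball (convex_ball _ _)
      (fun s hs => by
        rw [← hnear _ (hin s hs), hdiag, mul_one, zero_add, sub_self])
    have hd := ident1 (f := fun l : ℂ =>
        (∑ j, (ε 0 z j : ℂ) * (g 0 z j ((0 + l • 1) * 1) * conj (g 0 z j ((0 + conj l • 1) * 1)))) -
        ∑ j, A j ((0 + l • (1 : ℂ)) • z) * conj (B j ((0 + conj l • (1 : ℂ)) • z)))
      isOpen_univ convex_univ
      (fun l _ => (hS 0 1 0 1 l (Set.mem_univ _) (Set.mem_univ _)).differentiableWithinAt)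
      (Set.mem_univ 0) (by
        filter_upwards [isOpen_ball.mem_nhds (mem_ball_self hρ0)] with l hl
        have hl1 : (0 : ℂ) + l • (1 : ℂ) ∈ ball (0 : ℂ) ρ := by simpa using hl
        have hl2 : (0 : ℂ) + conj l • (1 : ℂ) ∈ ball (0 : ℂ) ρ := by simpa using hl
        exact hz0 _ hl1 _ hl2) 1 (Set.mem_univ _)
    rw [sub_eq_zero] at hd
    have h1 := hdiag 0 z 1 1
    simp only [map_one, smul_eq_mul, mul_one, zero_add, one_smul] at hd h1
    rw [← h1, hd]
  -- real part
  have hreal : ∀ z, p z = ∑ j, (‖(A j z + B j z) / 2‖ ^ 2 - ‖(A j z - B j z) / 2‖ ^ 2) := by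
    intro z
    have h1 : p z = ∑ j, (A j z * conj (B j z)).re := by
      have := congrArg Complex.re (hglob z)
      rw [Complex.ofReal_re, Complex.re_sum] at this
      exact this
    rw [h1]
    refine Finset.sum_congr rfl fun j _ => ?_
    rw [← Complex.normSq_eq_norm_sq, ← Complex.normSq_eq_norm_sq]
    simp only [Complex.normSq_apply, Complex.mul_re, Complex.conj_re, Complex.conj_im,
      Complex.div_ofNat_re, Complex.div_ofNat_im, Complex.add_re, Complex.add_im, Complex.sub_re,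
      Complex.sub_im]
    ring
  have hfin : HasRep p (Fintype.card (Fin r ⊕ Fin r)) := by
    apply HasRep.of_index (Sum.elim (fun _ => 1) (fun _ => -1))
      (Sum.elim (fun j z => (A j z + B j z) / 2) (fun j z => (A j z - B j z) / 2))
    · rintro (j | j)
      · left; rfl
      · right; rfl
    · rintro (j | j)
      · have h1 := hAd j
        have h2 := hBd j
        change Differentiable ℂ (fun z => (A j z + B j z) / 2)
        simp only [div_eq_mul_inv]
        exact (h1.add h2).mul_const _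
      · have h1 := hAd j
        have h2 := hBd j
        change Differentiable ℂ (fun z => (A j z - B j z) / 2)
        simp only [div_eq_mul_inv]
        exact (h1.sub h2).mul_const _
    · intro z
      rw [hreal z, Fintype.sum_sum_type, Finset.sum_sub_distrib]
      simp [sub_eq_add_neg]
  refine hfin.mono ?_
  rw [Fintype.card_sum, Fintype.card_fin, ← hN]
  omega

/-- a nonzero direction lies in a hyperplane direction -/
theorem exists_hyperplane {m : ℕ} (v : Fin (m + 2) → ℂ) (hv : v ≠ 0) :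
    ∃ (L : (Fin (m + 1) → ℂ) →ₗ[ℂ] (Fin (m + 2) → ℂ)) (x0 : Fin (m + 1) → ℂ),
      Function.Injective L ∧ L x0 = v := by
  let ψ : (Fin (m + 1) → ℂ) →ₗ[ℂ] (Fin (m + 2) → ℂ) :=
    { toFun := fun x => Fin.cons 0 x
      map_add' := by
        intro x y
        funext i
        refine Fin.cases ?_ (fun j => ?_) i <;> simp
      map_smul' := by
        intro a x
        funext i
        refine Fin.cases ?_ (fun j => ?_) i <;> simp }
  have hψ : Function.Injective ψ := by
    intro x y hxy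
    exact Fin.cons_right_injective (α := fun _ : Fin (m + 2) => ℂ) (0 : ℂ) hxy
  have hx0 : ψ (Pi.single 0 1) ≠ 0 := by
    intro h
    rw [← map_zero ψ] at h
    have := hψ h
    simp at this
  obtain ⟨A, hA⟩ := SeparatingDual.exists_continuousLinearEquiv_apply_eq (R := ℂ) hx0 hv
  refine ⟨A.toLinearEquiv.toLinearMap ∘ₗ ψ, Pi.single 0 1, ?_, hA⟩
  exact A.injective.comp hψ

/-- hyperplane ranks bound line ranks -/
theorem lineRank_of_hyperplanes {n : ℕ} (hn : 2 ≤ n) (p : (Fin n → ℂ) → ℝ) (k : ℕ)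
    (h : ∀ (a : Fin n → ℂ) (L : (Fin (n - 1) → ℂ) →ₗ[ℂ] (Fin n → ℂ)), Function.Injective L →
      HasRep (fun x => p (a + L x)) k) : LineRank p k := by
  obtain ⟨m, rfl⟩ : ∃ m, n = m + 2 := ⟨n - 2, by omega⟩
  change ∀ (a : Fin (m + 2) → ℂ) (L : (Fin (m + 1) → ℂ) →ₗ[ℂ] (Fin (m + 2) → ℂ)),
    Function.Injective L → HasRep (fun x => p (a + L x)) k at h
  intro a v
  by_cases hv : v = 0
  · obtain ⟨L, x0, hL, -⟩ := exists_hyperplane (m := m) (Pi.single 0 1) (by
      intro h0
      simp at h0)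
    obtain ⟨ε, f, -, h2, h3⟩ := h a L hL
    refine ⟨ε, fun j _ => f j 0, fun j => differentiable_const _, fun s => ?_⟩
    have := h3 0
    simp only [map_zero, add_zero] at this
    rw [hv, smul_zero, add_zero, this]
    refine Finset.sum_congr rfl fun j _ => ?_
    rw [Complex.normSq_eq_norm_sq]
  · obtain ⟨L, x0, hL, hLx⟩ := exists_hyperplane v hv
    obtain ⟨ε, f, -, h2, h3⟩ := h a L hL
    refine ⟨ε, fun j s => f j (s • x0), fun j => ?_, fun s => ?_⟩
    · exact (h2 j).comp (differentiable_id.smul_const x0)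
    · have := h3 (s • x0)
      simp only [map_smul, hLx] at this
      rw [this]
      refine Finset.sum_congr rfl fun j _ => ?_
      rw [Complex.normSq_eq_norm_sq]

/-- The rank of `p : ℂᵐ → ℝ`: the least `N` such that `p(z, z̄) = ∑_{j < N} εⱼ |fⱼ(z)|²` with
`εⱼ = ±1` and `fⱼ` holomorphic on `ℂᵐ`; it is `⊤` if there is no such `N`. -/
noncomputable def hermitianRank {m : ℕ} (p : (Fin m → ℂ) → ℝ) : ℕ∞ :=
  sInf {r : ℕ∞ | ∃ N : ℕ, r = (N : ℕ∞) ∧ HasRep p N}

theorem hermitianRank_le_iff {m : ℕ} (p : (Fin m → ℂ) → ℝ) (k : ℕ) :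
    hermitianRank p ≤ (k : ℕ∞) ↔ HasRep p k := by
  constructor
  · intro h
    have hne : {r : ℕ∞ | ∃ N : ℕ, r = (N : ℕ∞) ∧ HasRep p N}.Nonempty := by
      by_contra hcon
      rw [Set.not_nonempty_iff_eq_empty] at hcon
      unfold hermitianRank at h
      rw [hcon, _root_.sInf_empty] at h
      exact absurd h (by simp)
    obtain ⟨N, hN, hrep⟩ := csInf_mem hne
    change hermitianRank p = (N : ℕ∞) at hN
    rw [hN] at h
    exact hrep.mono (by exact_mod_cast h)
  · intro h
    exact sInf_le ⟨k, rfl, h⟩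

/-- Answer to the question: if `n ≥ 2` and `p : ℂⁿ → ℝ` is real analytic and its restriction to every
complex affine hyperplane `a + L(ℂⁿ⁻¹)` has rank at most `k`, then the rank of `p` is at most
`2 k^(n²)`. -/
theorem result (n : ℕ) (hn : 2 ≤ n) (k : ℕ) (p : (Fin n → ℂ) → ℝ)
    (hp : AnalyticOnNhd ℝ p Set.univ)
    (h : ∀ (a : Fin n → ℂ) (L : (Fin (n - 1) → ℂ) →ₗ[ℂ] (Fin n → ℂ)), Function.Injective L →
      hermitianRank (fun x => p (a + L x)) ≤ (k : ℕ∞)) :
    hermitianRank p ≤ ((2 * k ^ (n ^ 2) : ℕ) : ℕ∞) := by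
  rw [hermitianRank_le_iff]
  have h1 := main_lines p (fun c => hp c (Set.mem_univ c)) k
    (lineRank_of_hyperplanes hn p k fun a L hL => (hermitianRank_le_iff _ k).mp (h a L hL))
  rwa [← pow_mul, ← pow_two] at h1

end Pool.Agent.Results.MP_37b94e_an.RankBound
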